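import Pool.Agent.H88.KN.All

/-!
MP_b5bf4a_co: `f(n,k)` in the dense range.  Every `k ≥ 1` is `D(D-1)+2u+ε+1` for exactly one
triple `D ≥ 1`, `0 ≤ u < D`, `ε ∈ {0,1}`; for `2D+1 ≤ n ≤ 4D` the number `f(n,k)` is determined
up to one (`k` odd) or two (`k` even).
-/

namespace Pool.Agent.Results.MP_b5bf4a_co.DenseRange

open Pool.Agent.H66.GG

theorem result : ∀ D u ε n k : ℕ, 1 ≤ D → u < D → ε ≤ 1 → k = D * (D - 1) + 2 * u + ε + 1 →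
    2 * D + 1 ≤ n →
    ∃ v, IsLeast (FSet n k) v ∧ (D - 1) * n + n * u / D + ε + 1 ≤ v ∧
      (n ≤ 4 * D → v ≤ (D - 1) * n + (8 * u + 4 * ε + 2 - n % 2) * n / (8 * D) + 1) ∧
      ∀ t : ℝ, (n : ℝ) / 2 ≤ t → t ≤ n →
        (v : ℝ) ≤ n * (((k : ℝ) - 1 / 2 - ((n % 2 : ℕ) : ℝ) / 4) / t + t / 4 - 1 / 2) + 1 :=
  fun _ _ _ _ _ hD hu hε hk hn => Pool.Agent.H88.KN.dense_range Pool.Agent.H88.KN.mods hD hu hε
    hk hn

end Pool.Agent.Results.MP_b5bf4a_co.DenseRange
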