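import Pool.Agent.H66.GG.FinalOdd

/-!
MP_b5bf4a_co: the value of `f(n,k)` up to one for every even `k ≥ 4` and all large `n`.
Every even `k ≥ 4` is `D(D-1)+2u+2` for exactly one pair `D ≥ 2`, `0 ≤ u < D`; then `f(n,k)` is
`(D-1)n + ⌊un/D⌋ + 2` or `(D-1)n + ⌊un/D⌋ + 3` for all `n ≥ 100 D^6`.
-/

namespace Pool.Agent.Results.MP_b5bf4a_co.EvenLarge

open Pool.Agent.H66.GG

theorem result : ∀ D u n : ℕ, 2 ≤ D → u < D → 100 * D ^ 6 ≤ n →
    IsLeast (FSet n (D * (D - 1) + 2 * u + 2)) ((D - 1) * n + n * u / D + 2) ∨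
    IsLeast (FSet n (D * (D - 1) + 2 * u + 2)) ((D - 1) * n + n * u / D + 3) :=
  fun _ _ _ hD hu hn => even_large hD hu hn

end Pool.Agent.Results.MP_b5bf4a_co.EvenLarge
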