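import Pool.Agent.H66.GG.Final

/-!
MP_b5bf4a_co: the exact value of `f(n,k)` for every odd `k` and all large `n`.
Every odd `k ≥ 3` is `D(D-1)+2u+1` for exactly one pair `D ≥ 2`, `0 ≤ u < D`; then
`f(n,k) = (D-1)n + ⌊un/D⌋ + 1` for all `n ≥ 100 D^6`.
-/

namespace Pool.Agent.Results.MP_b5bf4a_co.OddLarge

open Pool.Agent.H66.GG

theorem result : ∀ D u n : ℕ, 2 ≤ D → u < D → 100 * D ^ 6 ≤ n →
    IsLeast (FSet n (D * (D - 1) + 2 * u + 1)) ((D - 1) * n + n * u / D + 1) :=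
  fun _ _ _ hD hu hn => exact_large hD hu hn

end Pool.Agent.Results.MP_b5bf4a_co.OddLarge
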