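import Pool.Agent.H66.GG.Final

/-!
MP_b5bf4a_co: two-sided bounds for `f(n,k)`, all `k`, with equality when `2D ∣ n` or `u = 0`.
-/

namespace Pool.Agent.Results.MP_b5bf4a_co.TwoSided

open Pool.Agent.H66.GG

theorem result : ∀ D u ε j t : ℕ, 1 ≤ D → u < D → ε ≤ 1 → 1 ≤ j →
    ((t = 0 ∧ (2 ≤ j ∨ 2 * u + ε < D)) ∨
      (t < 2 * D ∧ D - 1 ≤ j ∧ 2 * D + 1 ≤ 2 * D * j + t)) →
    ∃ v, IsLeast (FSet (2 * D * j + t) (D * (D - 1) + 2 * u + ε + 1)) v ∧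
      (D - 1) * (2 * D * j + t) + 2 * j * u + t * u / D + ε + 1 ≤ v ∧
      v ≤ (D - 1) * (2 * D * j + t) + 2 * j * u + min t (2 * u) + ε + 1 :=
  fun _ _ _ _ _ hD hu hε hj h => two_sided hD hu hε hj h

end Pool.Agent.Results.MP_b5bf4a_co.TwoSided
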